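import Pool.Agent.H31Z.OCA.Main
import Pool.Agent.Results.MP_d4a483_lc.OCAMetrizable

set_option autoImplicit false

open Set Topology TopologicalSpace

namespace Pool.Agent.Results.MP_d4a483_lc.Consistent

open Pool.Agent.Helper292.ForceCH H31Z.OCA
open Pool.Agent.Results.MP_d4a483_lc.OCAMetrizable (OCA Noetherian CountableRank)

theorem oca_of_oga (h : OGA) : OCA := by
  intro E _ _ _ K hK hs
  letI := TopologicalSpace.metrizableSpaceMetric E
  haveI : SecondCountableTopology E := UniformSpace.secondCountable_of_separable E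
  obtain ⟨b, hb⟩ := ((countable_countableBasis E).insert ∅).exists_eq_range (insert_nonempty _ _)
  have hE : ∀ i j : E, Edge (fun i m => i ∈ b m)
      (fun m n => ∀ x ∈ b m, ∀ y ∈ b n, (x, y) ∈ K ∧ x ≠ y) i j ↔ (i, j) ∈ K ∧ i ≠ j := by
    intro i j
    constructor
    · rintro ⟨m, n, h1, h2, h3⟩
      exact h3 i h1 j h2
    · intro hij
      have ho : IsOpen (K ∩ (diagonal E)ᶜ) := hK.inter isClosed_diagonal.isOpen_compl
      obtain ⟨u, v, hu, hv, hi, hj, huv⟩ := isOpen_prod_iff.1 ho i j hij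
      obtain ⟨u', hu', hi', huu⟩ := (isBasis_countableBasis E).exists_subset_of_mem_open hi hu
      obtain ⟨v', hv', hj', hvv⟩ := (isBasis_countableBasis E).exists_subset_of_mem_open hj hv
      obtain ⟨m, rfl⟩ : u' ∈ range b := hb ▸ Or.inr hu'
      obtain ⟨n, rfl⟩ : v' ∈ range b := hb ▸ Or.inr hv'
      exact ⟨m, n, hi', hj', fun x hx y hy => huv (mk_mem_prod (huu hx) (hvv hy))⟩
  rcases h E (fun i m => i ∈ b m) (fun m n => ∀ x ∈ b m, ∀ y ∈ b n, (x, y) ∈ K ∧ x ≠ y)
    ⟨fun m n H x hx y hy => ⟨hs _ _ (H y hy x hx).1, (H y hy x hx).2.symm⟩,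
      fun i hi => ((hE i i).1 hi).2 rfl⟩ with ⟨Y, h1, h2⟩ | ⟨F, h1, h2⟩
  · exact Or.inl ⟨Y, h1, fun x hx y hy hne => ((hE x y).1 (h2 x y ⟨hx, hy, hne⟩)).1⟩
  · exact Or.inr ⟨F, h1, fun n x hx y hy hne hk => h2 n x y ⟨hx, hy⟩ ((hE x y).2 ⟨hk, hne⟩)⟩

/-- A forcing notion preserves `ω₁` and forces the open colouring axiom, and the open colouring
axiom implies that every separable regular space with a Noetherian base of countable rank is
metrizable. -/
theorem result :
    (∃ (P : Type) (_ : Preorder P), Nonempty P ∧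
      ∀ p : P, p ∈ OmegaOnePreserved P ∧ p ∈ OGAHolds P) ∧
    (OGA → ∀ (X : Type*) [TopologicalSpace X] [T3Space X] [SeparableSpace X]
      (ℬ : Set (Set X)), IsTopologicalBasis ℬ → Noetherian ℬ → CountableRank ℬ →
        MetrizableSpace X) :=
  ⟨H31Z.OCA.exists_forcing, fun h => OCAMetrizable.result (oca_of_oga h)⟩

end Pool.Agent.Results.MP_d4a483_lc.Consistent
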